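import Mathlib
import Pool.Agent.Lib.MP_405d56_lc.I.Cube

/-! # MP_405d56_lc, Q1: the Borel Vizing bound for Borel graphs of asymptotic separation index at most one -/

set_option autoImplicit false

universe u

namespace Pool.Agent.Results.MP_405d56_lc.BorelVizing

/-- the set of edges of `G` as a set of ordered pairs -/
def edges {X : Type u} (G : SimpleGraph X) : Set (X × X) := {p | G.Adj p.1 p.2}

/-- the graph on `U` joining distinct `x, y` when their graph distance in `G` is at most `r` -/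
def powerOn {X : Type u} (G : SimpleGraph X) (r : ℕ) (U : Set X) : SimpleGraph U where
  Adj x y := x ≠ y ∧ G.edist (x : X) (y : X) ≤ (r : ℕ∞)
  symm := ⟨fun _ _ h => ⟨h.1.symm, by rw [SimpleGraph.edist_comm]; exact h.2⟩⟩
  loopless := ⟨fun _ h => h.1 rfl⟩

/-- the Borel asymptotic separation index: the least `s` such that for every `r ≥ 1` there are
Borel sets `U 0, ..., U s` covering `X` with every connected component of each `powerOn G r (U i)`
finite; it is `⊤` if there is no such `s` -/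
noncomputable def asiB {X : Type u} [MeasurableSpace X] (G : SimpleGraph X) : ℕ∞ :=
  sInf {t : ℕ∞ | ∃ s : ℕ, t = s ∧ ∀ r : ℕ, 1 ≤ r → ∃ U : Fin (s + 1) → Set X,
    (∀ i, MeasurableSet (U i)) ∧ (⋃ i, U i) = Set.univ ∧
      ∀ i, ∀ C : (powerOn G r (U i)).ConnectedComponent, C.supp.Finite}

/-- `c` is a Borel proper edge colouring with `k` colours -/
def IsBorelEdgeColouring {X : Type u} [MeasurableSpace X] (G : SimpleGraph X) (k : ℕ)
    (c : edges G → Fin k) : Prop :=
  Measurable c ∧
    (∀ x y : X, ∀ (h : (x, y) ∈ edges G) (h' : (y, x) ∈ edges G),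
      c ⟨(x, y), h⟩ = c ⟨(y, x), h'⟩) ∧
    ∀ x y z : X, ∀ (h : (x, y) ∈ edges G) (h' : (x, z) ∈ edges G), y ≠ z →
      c ⟨(x, y), h⟩ ≠ c ⟨(x, z), h'⟩

/-- the Borel edge chromatic number, `⊤` if there is no finite Borel proper edge colouring -/
noncomputable def chiB {X : Type u} [MeasurableSpace X] (G : SimpleGraph X) : ℕ∞ :=
  sInf {t : ℕ∞ | ∃ k : ℕ, t = k ∧ ∃ c : edges G → Fin k, IsBorelEdgeColouring G k c}

theorem exists_walk_of_edist {X : Type u} (G : SimpleGraph X) {r : ℕ} {x y : X}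
    (p : G.Walk x y) (hp : p.length ≤ r) : G.edist x y ≤ (r : ℕ∞) :=
  le_trans (SimpleGraph.edist_le p) (by exact_mod_cast hp)

/-- from the components of `powerOn` to the components of `MP405I.rel` -/
theorem fin_rel {X : Type u} (G : SimpleGraph X) (r : ℕ) (U : Set X)
    (h : ∀ C : (powerOn G r U).ConnectedComponent, C.supp.Finite) (x : X) :
    {y | (MP405I.rel G r U).Reachable x y}.Finite := by
  classical
  have key : ∀ y, (MP405I.rel G r U).Reachable x y → x ≠ y → ∃ (hx : x ∈ U) (hy : y ∈ U),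
      (powerOn G r U).Reachable ⟨x, hx⟩ ⟨y, hy⟩ := by
    rintro y ⟨p⟩ hne
    have step : ∀ a b, (MP405I.rel G r U).Adj a b → ∃ (ha : a ∈ U) (hb : b ∈ U),
        (powerOn G r U).Adj ⟨a, ha⟩ ⟨b, hb⟩ := by
      intro a b hab
      unfold MP405I.rel at hab
      rw [SimpleGraph.fromRel_adj] at hab
      obtain ⟨hne, h1⟩ := hab
      rcases h1 with ⟨ha, hb, q, hq⟩ | ⟨hb, ha, q, hq⟩
      · exact ⟨ha, hb, fun h => hne (congrArg Subtype.val h), exists_walk_of_edist G q hq⟩
      · refine ⟨ha, hb, fun h => hne (congrArg Subtype.val h), ?_⟩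
        show G.edist a b ≤ _
        rw [SimpleGraph.edist_comm]
        exact exists_walk_of_edist G q hq
    have main : ∀ a b, ∀ p : (MP405I.rel G r U).Walk a b, ∀ ha : a ∈ U, ∃ hb : b ∈ U,
        (powerOn G r U).Reachable ⟨a, ha⟩ ⟨b, hb⟩ := by
      intro a b p
      induction p with
      | nil => exact fun ha => ⟨ha, SimpleGraph.Reachable.refl _⟩
      | @cons u v w hadj p ih =>
        intro ha
        obtain ⟨h1, h2, h3⟩ := step _ _ hadj
        obtain ⟨h4, h5⟩ := ih h2
        exact ⟨h4, h3.reachable.trans h5⟩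
    have hx : x ∈ U := by
      cases p with
      | nil => exact (hne rfl).elim
      | cons hadj p =>
        obtain ⟨h1, -, -⟩ := step _ _ hadj
        exact h1
    obtain ⟨hy, h1⟩ := main x y p hx
    exact ⟨hx, hy, h1⟩
  by_cases hx : x ∈ U
  · have h1 := (h ((powerOn G r U).connectedComponentMk ⟨x, hx⟩)).image Subtype.val
    refine ((Set.finite_singleton x).union h1).subset ?_
    intro y hy
    by_cases hxy : x = y
    · exact Or.inl hxy.symm
    · obtain ⟨h2, h3, h4⟩ := key y hy hxy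
      refine Or.inr ⟨⟨y, h3⟩, ?_, rfl⟩
      rw [SimpleGraph.ConnectedComponent.mem_supp_iff, SimpleGraph.ConnectedComponent.eq]
      exact h4.symm
  · refine (Set.finite_singleton x).subset ?_
    intro y hy
    by_contra hxy
    obtain ⟨h2, -, -⟩ := key y hy (fun h => hxy h.symm)
    exact hx h2

theorem asi_two {X : Type u} [MeasurableSpace X] (G : SimpleGraph X) (h : asiB G ≤ 1) (r : ℕ) :
    ∃ U : Fin 2 → Set X, (∀ i, MeasurableSet (U i)) ∧ (⋃ i, U i) = Set.univ ∧
        ∀ (i : Fin 2) (x : X), {y : X | (MP405I.rel G r (U i)).Reachable x y}.Finite := by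
  classical
  have hne : {t : ℕ∞ | ∃ s : ℕ, t = s ∧ ∀ r : ℕ, 1 ≤ r → ∃ U : Fin (s + 1) → Set X,
    (∀ i, MeasurableSet (U i)) ∧ (⋃ i, U i) = Set.univ ∧
      ∀ i, ∀ C : (powerOn G r (U i)).ConnectedComponent, C.supp.Finite}.Nonempty := by
    by_contra hcon
    rw [Set.not_nonempty_iff_eq_empty] at hcon
    unfold asiB at h
    rw [hcon, sInf_empty] at h
    exact absurd h (by decide)
  obtain ⟨s, hs, hs2⟩ := csInf_mem hne
  have hs1 : s ≤ 1 := by
    have h1 : ((s : ℕ) : ℕ∞) ≤ 1 := by
      rw [← hs]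
      exact h
    exact_mod_cast h1
  obtain ⟨U, hU1, hU2, hU3⟩ := hs2 (r + 1) (by omega)
  have hmono : ∀ (V : Set X) (x : X), {y : X | (MP405I.rel G (r + 1) V).Reachable x y}.Finite →
      {y : X | (MP405I.rel G r V).Reachable x y}.Finite := by
    intro V x hfin
    refine hfin.subset ?_
    intro y hy
    have hle : MP405I.rel G r V ≤ MP405I.rel G (r + 1) V := by
      intro a b hab
      unfold MP405I.rel at hab ⊢
      rw [SimpleGraph.fromRel_adj] at hab ⊢
      refine ⟨hab.1, ?_⟩
      rcases hab.2 with ⟨ha, hb, q, hq⟩ | ⟨ha, hb, q, hq⟩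
      · exact Or.inl ⟨ha, hb, q, by omega⟩
      · exact Or.inr ⟨ha, hb, q, by omega⟩
    exact SimpleGraph.Reachable.mono hle hy
  refine ⟨fun i => U (Fin.ofNat (s + 1) i.val), fun i => hU1 _, ?_, fun i x =>
    hmono _ _ (fin_rel G (r + 1) _ (hU3 _) x)⟩
  apply Set.eq_univ_of_univ_subset
  rw [← hU2]
  refine Set.iUnion_subset fun j => ?_
  have hj : j.val < 2 := by
    have := j.isLt
    omega
  refine Set.subset_iUnion_of_subset ⟨j.val, hj⟩ ?_
  have : Fin.ofNat (s + 1) ((⟨j.val, hj⟩ : Fin 2).val) = j := by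
    apply Fin.ext
    show j.val % (s + 1) = j.val
    exact Nat.mod_eq_of_lt j.isLt
  rw [this]

/-- Every Borel graph on a standard Borel space with all degrees at most `d` and Borel asymptotic
separation index at most `1` has Borel edge chromatic number at most `d + 1`. -/
theorem result : ∀ (X : Type u) [MeasurableSpace X] [StandardBorelSpace X] (G : SimpleGraph X),
    MeasurableSet (edges G) → ∀ d : ℕ, (∀ x : X, (G.neighborSet x).encard ≤ (d : ℕ∞)) →
      asiB G ≤ 1 → chiB G ≤ (d : ℕ∞) + 1 := by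
  intro X _ _ G hG d hd hasi
  classical
  obtain ⟨c, hc1, hc2, hc3⟩ := MP405I.bounded G d hG hd (asi_two G hasi)
  refine sInf_le ⟨d + 1, by push_cast; rfl, fun p => ⟨c p.1, (hc2 p.1.1 p.1.2 p.2).1⟩, ?_, ?_, ?_⟩
  · refine measurable_to_countable' fun k => ?_
    have h1 : (fun p : edges G => (⟨c p.1, (hc2 p.1.1 p.1.2 p.2).1⟩ : Fin (d + 1))) ⁻¹' {k} =
        (fun p : edges G => c p.1) ⁻¹' {k.val} := by
      ext p
      simp only [Set.mem_preimage, Set.mem_singleton_iff, Fin.ext_iff]
    rw [h1]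
    exact (hc1.comp measurable_subtype_coe) (measurableSet_singleton _)
  · intro x y h h'
    apply Fin.ext
    exact (hc2 x y h).2
  · intro x y z h h' hne heq
    exact hc3 x y z h h' hne (congrArg Fin.val heq)

end Pool.Agent.Results.MP_405d56_lc.BorelVizing
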